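import Pool.Agent.Helper10K1.ML.Stm

/-!
# Project ML of helper10, piece DOWN (helper64)
-/

set_option autoImplicit false

namespace Pool.Agent.Helper64.ML

open Pool.Agent.Helper10K1.ML Filter

universe u

theorem lc_eval (F : Type u) [Field F] (x : SeparableClosure F) :
    IsLocallyConstant fun g : G F => g x := by
  rw [IsLocallyConstant.iff_exists_open]
  intro g
  have h1 : IsOpen (MulAction.stabilizer (G F) x : Set (G F)) :=
    stabilizer_isOpen_of_isIntegral x
  refine ⟨(fun h : G F => g⁻¹ * h) ⁻¹' (MulAction.stabilizer (G F) x : Set (G F)),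
    h1.preimage (continuous_const.mul continuous_id), ?_, fun h hh => ?_⟩
  · simp
  · have h2 : (g⁻¹ * h) • x = x := hh
    rw [mul_smul, inv_smul_eq_iff] at h2
    exact h2

open Classical in
theorem t_DOWN : S_DOWN.{u} := by
  intro hprim F _ U j R hR Q _ _ σ hσ
  obtain ⟨t, ht⟩ := hprim (Ul F U) σ.ker inferInstance hσ
  have hs : ∀ q : Q, ∃ γ : G (Ul F U), q ∈ Set.range σ → σ γ = q := fun q => by
    by_cases h : q ∈ Set.range σ
    · obtain ⟨γ, hγ⟩ := h
      exact ⟨γ, fun _ => hγ⟩
    · exact ⟨1, fun h' => absurd h' h⟩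
  choose s hs using hs
  obtain ⟨x0, hx0⟩ := cls_surj (fun N => SeparableClosure (F N)) U (j t)
  have hx : ∀ q : Q, ∃ x : ∀ N, SeparableClosure (F N), cls _ U x = j (s q t) := fun q =>
    cls_surj (fun N => SeparableClosure (F N)) U (j (s q t))
  choose x hx using hx
  -- equality of the values at `t`
  have heq : ∀ γ γ' : G (Ul F U), γ t = γ' t ↔ σ γ = σ γ' := by
    intro γ γ'
    have h1 := ht (γ'⁻¹ * γ)
    rw [MonoidHom.mem_ker, map_mul, map_inv, inv_mul_eq_one] at h1
    constructor
    · intro h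
      refine (h1.1 ?_).symm
      show γ'⁻¹ (γ t) = t
      rw [h]
      exact γ'.symm_apply_apply t
    · intro h
      have h2 : γ'⁻¹ (γ t) = t := h1.2 h.symm
      have h3 := congrArg γ' h2
      have h4 : γ' (γ'⁻¹ (γ t)) = γ t := γ'.apply_symm_apply (γ t)
      rw [h4] at h3
      exact h3
  have hsep : ∀ᶠ N in U, ∀ q q' : Q, q ∈ Set.range σ → q' ∈ Set.range σ → x q N = x q' N → q = q' := by
    rw [Filter.eventually_all]
    intro q
    rw [Filter.eventually_all]
    intro q'
    by_cases h : q ∈ Set.range σ ∧ q' ∈ Set.range σ ∧ q ≠ q'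
    · have h1 : ¬ ∀ᶠ N in U, x q N = x q' N := by
        intro h2
        rw [← cls_eq (fun N => SeparableClosure (F N)) U, hx, hx] at h2
        have h3 := (heq _ _).1 (j.injective h2)
        rw [hs q h.1, hs q' h.2.1] at h3
        exact h.2.2 h3
      filter_upwards [Ultrafilter.eventually_not.2 h1] with N hN _ _ h4
      exact absurd h4 hN
    · refine Filter.Eventually.of_forall fun N h1 h2 _ => ?_
      by_contra h3
      exact h ⟨h1, h2, h3⟩
  refine ⟨fun N g => if h : ∃ q : Q, q ∈ Set.range σ ∧ g (x0 N) = x q N then h.choose else 1,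
    fun N => ?_, fun g => ?_⟩
  · exact (lc_eval (F N) (x0 N)).comp fun y : SeparableClosure (F N) =>
      if h : ∃ q : Q, q ∈ Set.range σ ∧ y = x q N then h.choose else 1
  · have h1 : R g t = s (σ (R g)) t := (heq _ _).2 (hs _ ⟨R g, rfl⟩).symm
    have h2 := hR.comp g t x0 hx0.symm
    rw [h1, ← hx, cls_eq (fun N => SeparableClosure (F N)) U] at h2
    filter_upwards [h2, hsep] with N hN1 hN2
    have h3 : ∃ q : Q, q ∈ Set.range σ ∧ g N (x0 N) = x q N := ⟨σ (R g), ⟨R g, rfl⟩, hN1.symm⟩
    rw [dif_pos h3]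
    have h4 := h3.choose_spec
    exact hN2 _ _ h4.1 ⟨R g, rfl⟩ (h4.2.symm.trans hN1.symm)

end Pool.Agent.Helper64.ML
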